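import Pool.Agent.MWE.Stmts

/-!
Row PNA of squad MWE: the pentagon for an arbitrary family (copy of Helper31_MVD.PEF and
Helper11_MWD.PEF3).
-/

set_option autoImplicit false

namespace Pool.Agent.MWE.H24

open Pool.Agent.Helper14_MV Pool.Agent.Helper2_MV Pool.Agent.MVD

/-- the property -/
def PQ (Fm : List ℕ → List ℕ → Prop) (c : ℕ → Prop) (w : Word) : Prop :=
  ∃ s, Fm s w.toList ∧ c (cls s)

/-- the largest fully invariant congruence which keeps the family and the value of `k` at the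
class -/
def FQ (Fm : List ℕ → List ℕ → Prop) (k : ℕ → ℕ) : FIC where
  r := fun u v => ∀ c : ℕ, (gam (PQ Fm (fun j => k j = c))).r u v
  refl := fun _ _ => FIC.refl _ _
  symm := fun h c => FIC.symm _ (h c)
  trans := fun h h' c => FIC.trans _ (h c) (h' c)
  mul := fun h h' c => FIC.mul _ (h c) (h' c)
  sub := fun φ _ _ h c => FIC.sub _ φ (h c)

theorem FQ.keep {Fm : List ℕ → List ℕ → Prop} {k : ℕ → ℕ} {u v : Word}
    (h : (FQ Fm k).r u v) (c : ℕ) :
    PQ Fm (fun j => k j = c) u ↔ PQ Fm (fun j => k j = c) v := by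
  have := h c (MonoidHom.id _) 1 1
  simpa using this

theorem le_FQ {β : FIC} {Fm : List ℕ → List ℕ → Prop}
    (hinv : ∀ s w w', Fm s w → RR β w w' → Fm s w') (k : ℕ → ℕ) : β ≤ FQ Fm k := by
  have key : ∀ (w w' : Word) (c : ℕ → Prop), β.r w w' → PQ Fm c w → PQ Fm c w' := by
    rintro w w' c hw ⟨s, hF, hc⟩
    have hr : RR β w.toList w'.toList := hw
    exact ⟨s, hinv s _ _ hF hr, hc⟩
  intro u v huv c φ p q
  have h3 : β.r (p * φ u * q) (p * φ v * q) := β.mul (β.mul (β.refl p) (β.sub φ huv)) (β.refl q)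
  exact ⟨key _ _ _ h3, key _ _ _ (β.symm h3)⟩

/-- the words of the pentagon -/
def wf (W : List ℕ → List ℕ) (s : List ℕ) : Word := FreeMonoid.ofList (W s)

theorem wf_rel {Fm : List ℕ → List ℕ → Prop} {W : List ℕ → List ℕ}
    (stf : ∀ s s' : List ℕ, s.Perm [0, 1, 2, 3] → s'.Perm [0, 1, 2, 3] → chk s s' = true →
      ∀ (φ : ℕ → List ℕ) (M Q t : List ℕ), Fm t (M ++ ((W s).flatMap φ ++ Q)) →
        ∃ t', Fm t' (M ++ ((W s').flatMap φ ++ Q)) ∧ (cls t' = cls t ∨ (t = s ∧ t' = s')))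
    {s s' : List ℕ}
    (hs : s.Perm [0, 1, 2, 3]) (hs' : s'.Perm [0, 1, 2, 3]) (hchk : chk s s' = true)
    (hchk' : chk s' s = true) (k : ℕ → ℕ) (hk : k (cls s) = k (cls s')) :
    (FQ Fm k).r (wf W s) (wf W s') := by
  intro c φ p q
  have e : ∀ t : List ℕ, (p * φ (wf W t) * q).toList =
      p.toList ++ ((W t).flatMap (fun i => (φ (FreeMonoid.of i)).toList) ++
        q.toList) := by
    intro t
    rw [FreeMonoid.toList_mul, FreeMonoid.toList_mul, toList_hom, List.append_assoc]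
    rfl
  constructor
  · rintro ⟨t, h1, h2⟩
    rw [e] at h1
    obtain ⟨t', h3, h4⟩ := stf s s' hs hs' hchk _ _ _ t h1
    refine ⟨t', by rw [e]; exact h3, ?_⟩
    rcases h4 with h4 | ⟨rfl, rfl⟩
    · show k (cls t') = c
      rw [h4]
      exact h2
    · show k (cls t') = c
      rw [← hk]
      exact h2
  · rintro ⟨t, h1, h2⟩
    rw [e] at h1
    obtain ⟨t', h3, h4⟩ := stf s' s hs' hs hchk' _ _ _ t h1
    refine ⟨t', by rw [e]; exact h3, ?_⟩
    rcases h4 with h4 | ⟨rfl, rfl⟩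
    · show k (cls t') = c
      rw [h4]
      exact h2
    · show k (cls t') = c
      rw [hk]
      exact h2

/-- **PNA** -/
theorem pna : PnaStmt := by
  intro β Fm W hm _ hW hF hU hS
  have p0 : ([1, 3, 0, 2] : List ℕ).Perm [0, 1, 2, 3] := by decide
  have p1 : ([2, 0, 3, 1] : List ℕ).Perm [0, 1, 2, 3] := by decide
  have p2 : ([0, 1, 2, 3] : List ℕ).Perm [0, 1, 2, 3] := List.Perm.refl _
  have p3 : ([3, 2, 1, 0] : List ℕ).Perm [0, 1, 2, 3] := by decide
  have hle : FQ Fm kr ≤ FQ Fm kt := by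
    intro u v h c φ p q
    have e : ∀ w : Word, PQ Fm (fun j => kt j = c) w ↔
        (∃ d, (∃ j, kr j = d ∧ kt j = c) ∧ PQ Fm (fun j => kr j = d) w) := by
      intro w
      constructor
      · rintro ⟨s, hb, hc⟩
        exact ⟨kr (cls s), ⟨_, rfl, hc⟩, s, hb, rfl⟩
      · rintro ⟨d, ⟨j, hj1, hj2⟩, s, hb, hd⟩
        refine ⟨s, hb, ?_⟩
        have : kt (cls s) = kt j := by
          have h3 : kr (cls s) = kr j := by rw [hj1]; exact hd
          have h4 : ∀ i, kt i = if kr i = 0 then 0 else 2 := by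
            intro i
            unfold kt kr
            by_cases h5 : i = 1
            · simp [h5]
            · by_cases h6 : i = 0
              · simp [h6]
              · simp [h5, h6]
          rw [h4, h4 j, h3]
        show kt (cls s) = c
        rw [this, hj2]
    rw [e, e]
    constructor
    · rintro ⟨d, hd, hP⟩
      exact ⟨d, hd, (h d φ p q).1 hP⟩
    · rintro ⟨d, hd, hP⟩
      exact ⟨d, hd, (h d φ p q).2 hP⟩
  have s20 := wf_rel hS p2 p0 chk20 chk02 ks (by decide)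
  have s01 := wf_rel hS p0 p1 chk01 chk10 kr (by decide)
  have s13 := wf_rel hS p1 p3 chk13 chk31 ks (by decide)
  have s23 := wf_rel hS p2 p3 chk23 chk32 kt (by decide)
  have hsup : (FIC.sup (FQ Fm kr) (FQ Fm ks)).r (wf W [0, 1, 2, 3]) (wf W [3, 2, 1, 0]) := by
    have a1 := FIC.le_sup_right (FQ Fm kr) (FQ Fm ks) _ _ s20
    have a2 := FIC.le_sup_left (FQ Fm kr) (FQ Fm ks) _ _ s01
    have a3 := FIC.le_sup_right (FQ Fm kr) (FQ Fm ks) _ _ s13
    exact FIC.trans _ (FIC.trans _ a1 a2) a3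
  have hfin := hm (FQ Fm kr) (FQ Fm ks) (FQ Fm kt) (le_FQ hF kr) (le_FQ hF ks) (le_FQ hF kt) hle
    _ _ hsup s23
  have hinv : ∀ w w' : Word, (FIC.sup (FQ Fm kr) (FIC.inf (FQ Fm ks) (FQ Fm kt))).r w w' →
      PQ Fm (fun j => j = 2) w → PQ Fm (fun j => j = 2) w' := by
    intro w w' h
    induction h with
    | refl => exact id
    | tail _ h3 ih =>
      intro hw
      obtain ⟨s, hs, hc⟩ := ih hw
      have hc2 : cls s = 2 := hc
      rcases h3 with h3 | h3
      · obtain ⟨s1, g1, g2⟩ := (FQ.keep h3 2).1 ⟨s, hs, by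
          show kr _ = 2
          rw [hc2]; rfl⟩
        exact ⟨s1, g1, kr_two g2⟩
      · obtain ⟨h3s, h3t⟩ := h3
        obtain ⟨s1, g1, g2⟩ := (FQ.keep h3s 0).1 ⟨s, hs, by
          show ks _ = 0
          rw [hc2]; rfl⟩
        obtain ⟨s2, g3, g4⟩ := (FQ.keep h3t 2).1 ⟨s, hs, by
          show kt _ = 2
          rw [hc2]; rfl⟩
        have hss := hU _ _ _ g1 g3
        subst hss
        exact ⟨s1, g1, ks_kt g2 g4⟩
  obtain ⟨s, g1, g2⟩ := hinv _ _ hfin ⟨[0, 1, 2, 3], hW _ p2, by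
    show cls _ = 2
    decide⟩
  have h4 := hU _ _ _ g1 (hW _ p3)
  subst h4
  exact absurd g2 (by decide)

end Pool.Agent.MWE.H24
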